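import Mathlib
import Pool.Agent.Helper259.Var.Hyp
import Pool.Agent.Helper259.Var.Good
import Pool.Agent.Helper259.Var.InfPts

set_option autoImplicit false

namespace Pool.Agent.Results.MP_30aac3_nt.VariationOfHeight

open Pool.Agent.Helper259.AbsHt Pool.Agent.Helper259.Var

universe u

/-- Variation of the canonical height in one-parameter families of endomorphisms of projective
space: the difference with the Weil height of the limit divisor is bounded. -/
theorem result {K : Type u} [Field K] [Algebra Qbar K] (hK : IsFunctionField K) {N d : ℕ}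
    (hd : 2 ≤ d) (F : Fin (N + 1) → MvPolynomial (Fin (N + 1)) K)
    (hhom : ∀ i, (F i).IsHomogeneous d)
    (hmor : ∀ x : Fin (N + 1) → AlgebraicClosure K,
      (∀ i, MvPolynomial.aeval x (F i) = 0) → x = 0)
    (P : Fin (N + 1) → K) (hP : P ≠ 0) :
    Infinite (CurvePoint K) ∧ (∀ t : CurvePoint K, ∃ v, IsOrd t v) ∧
    {t : CurvePoint K | ¬ ∃ F' : Fin (N + 1) → MvPolynomial (Fin (N + 1)) Qbar,
      IsSpecAt t F F' ∧ NoCommonZero F'}.Finite ∧
    (∃ E : CurvePoint K →₀ ℝ,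
      (∀ (t : CurvePoint K) (v : K → ℤ), IsOrd t v → Filter.Tendsto
        (fun n => (polarOrd v (iterQ F P n) : ℝ) / (d : ℝ) ^ n) Filter.atTop (nhds (E t))) ∧
      HeightIsWeil d F P E) ∧
    ∀ l : Fin (N + 1) → Qbar, IsTotallyInvariant d F l →
      ∑ i, algebraMap Qbar K (l i) * P i ≠ 0 →
      ∃ E : CurvePoint K →₀ ℝ,
        (∀ (t : CurvePoint K) (v : K → ℤ), IsOrd t v → Filter.Tendsto
          (fun n => (pullbackOrd v l (iterQ F P n) : ℝ) / (d : ℝ) ^ n) Filter.atTop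
          (nhds (E t))) ∧
        HeightIsWeil d F P E := by
  obtain ⟨E₀, hE₀, hh₀, hb₀⟩ := main_coord hK hd F hhom hmor P hP
  refine ⟨infinite_points hK, fun t => exists_ord hK t, good_cofinite hK F hhom hmor,
    ⟨E₀, hE₀, hh₀, hb₀⟩, ?_⟩
  rintro l ⟨a, ha, hinv⟩ hl
  obtain ⟨E, hE, hh, hb⟩ := main_hyperplane hK hd F hhom hmor P hP l a ha hinv hl
  refine ⟨E, hE, hh, fun h hW => ?_⟩
  obtain ⟨C, hC⟩ := hb h hW
  obtain ⟨h₀, hh₀'⟩ := hh₀
  obtain ⟨C₀, hC₀⟩ := hb₀ h₀ hh₀'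
  exact ⟨C, fun t F' P' h1 h2 h3 => ⟨(hC₀ t F' P' h1 h2 h3).1, hC t F' P' h1 h2 h3⟩⟩

end Pool.Agent.Results.MP_30aac3_nt.VariationOfHeight
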